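import Mathlib
import Pool.Agent.H762R3.Rot

/-!
# Zero-one laws for the spectral gap of pairs of rotations: definitions and statements of the pieces
-/

set_option autoImplicit false

open MeasureTheory Set

namespace Pool.Agent.K1H92.ZO

/-! ## Coordinates: quaternions as pairs (real part, imaginary part) -/

/-- imaginary quaternions -/
abbrev V : Type := Fin 3 → ℝ

/-- quaternions: real part and imaginary part -/
abbrev X : Type := ℝ × V

/-- the product of quaternions: `(x + v) (y + w) = (x y - v·w) + (x w + y v + v × w)` -/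
def qmul (p q : X) : X :=
  (p.1 * q.1 - (p.2 0 * q.2 0 + p.2 1 * q.2 1 + p.2 2 * q.2 2),
   ![p.1 * q.2 0 + q.1 * p.2 0 + (p.2 1 * q.2 2 - p.2 2 * q.2 1),
     p.1 * q.2 1 + q.1 * p.2 1 + (p.2 2 * q.2 0 - p.2 0 * q.2 2),
     p.1 * q.2 2 + q.1 * p.2 2 + (p.2 0 * q.2 1 - p.2 1 * q.2 0)])

/-- the square of the norm -/
def nsq (p : X) : ℝ := p.1 ^ 2 + p.2 0 ^ 2 + p.2 1 ^ 2 + p.2 2 ^ 2

/-- the group of the rotations of `ℝ³` -/
abbrev SO3 : Type := Matrix.specialOrthogonalGroup (Fin 3) ℝ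

open Classical in
/-- the rotation of a quaternion `p ≠ 0`, that is `z ↦ p z p⁻¹` (and the identity if `p = 0`) -/
noncomputable def R (p : X) : SO3 :=
  if h : (nsq p)⁻¹ • Pool.Agent.H762R3.Rot.rotM ⟨p.1, p.2 0, p.2 1, p.2 2⟩ ∈
      Matrix.specialOrthogonalGroup (Fin 3) ℝ then ⟨_, h⟩ else 1

/-! ## Pieces on quaternions -/

/-- CIRC: a measurable set of reals which contains `x` whenever it contains
`(x² - r²) / (2 x)` (that is: `r cot θ` whenever it contains `r cot 2θ`) is null or conull. -/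
def StmCirc : Prop := ∀ (r : ℝ) (E : Set ℝ), 0 < r → MeasurableSet E →
  (∀ x : ℝ, x ≠ 0 → (x ^ 2 - r ^ 2) / (2 * x) ∈ E → x ∈ E) →
  volume E = 0 ∨ volume Eᶜ = 0

/-- CORE1: a symmetric measurable set `S` of pairs of quaternions almost all of whose sections in
the direction of the first real part are null or conull depends on the imaginary parts only. -/
def StmCore1 : Prop := ∀ S : Set (X × X), MeasurableSet S →
  (∀ p q, (p, q) ∈ S ↔ (q, p) ∈ S) →
  (∀ᵐ z : V × X, volume {x : ℝ | ((x, z.1), z.2) ∈ S} = 0 ∨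
    volume {x : ℝ | ((x, z.1), z.2) ∉ S} = 0) →
  ∃ D : Set (V × V), MeasurableSet D ∧ ∀ᵐ z : X × X, (z ∈ S ↔ (z.1.2, z.2.2) ∈ D)

/-- CORE2: a set of pairs of quaternions which depends on the imaginary parts only (up to a null
set), is symmetric, and is invariant under `(p, q) ↦ (p q, q)` and `(p, q) ↦ (c p, q)`, is null
or conull. -/
def StmCore2 : Prop := ∀ (S : Set (X × X)) (D : Set (V × V)), MeasurableSet S →
  MeasurableSet D →
  (∀ᵐ z : X × X, (z ∈ S ↔ (z.1.2, z.2.2) ∈ D)) →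
  (∀ p q, (p, q) ∈ S ↔ (q, p) ∈ S) →
  (∀ p q, nsq p ≠ 0 → nsq q ≠ 0 → ((qmul p q, q) ∈ S ↔ (p, q) ∈ S)) →
  (∀ (c : ℝ) p q, c ≠ 0 → ((c • p, q) ∈ S ↔ (p, q) ∈ S)) →
  volume S = 0 ∨ volume Sᶜ = 0

/-- ROT: the map `R` from the quaternions to the rotations. -/
structure StmRot [MeasurableSpace SO3] [BorelSpace SO3] : Prop where
  meas : Measurable R
  mul : ∀ p q, nsq p ≠ 0 → nsq q ≠ 0 → R (qmul p q) = R p * R q
  smul : ∀ (c : ℝ) (p : X), c ≠ 0 → R (c • p) = R p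
  surj : ∀ g : SO3, ∃ p, nsq p = 1 ∧ R p = g

/-- HAAR: sets of pairs of rotations with Lebesgue null preimage are null sets for the Haar
measure. -/
def StmHaar [MeasurableSpace SO3] [BorelSpace SO3] : Prop :=
  ∀ (μ : Measure SO3) [μ.IsHaarMeasure] [IsProbabilityMeasure μ] (O : Set (SO3 × SO3)),
    MeasurableSet O → volume {z : X × X | (R z.1, R z.2) ∈ O} = 0 → (μ.prod μ) O = 0

/-! ## Pieces on the spectral gap -/

/-- the finite set `S` of rotations has a spectral gap: `⟨T_S f, f⟩ ≤ (|S| - ε) ‖f‖²` for all `f` in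
`L²` with integral zero, where `T_S f (g) = ∑ f (s g)` -/
def HasGap [MeasurableSpace SO3] (μ : Measure SO3) (S : Finset SO3) : Prop :=
  ∃ ε : ℝ, 0 < ε ∧ ∀ f : SO3 → ℂ, MemLp f 2 μ → ∫ g, f g ∂μ = 0 →
    (∫ g, (∑ s ∈ S, f (s * g)) * (starRingEnd ℂ) (f g) ∂μ).re ≤
      ((S.card : ℝ) - ε) * ∫ g, ‖f g‖ ^ 2 ∂μ

open Classical in
/-- the set `{a, b, a⁻¹, b⁻¹}` -/
noncomputable def gens (a b : SO3) : Finset SO3 := {a, b, a⁻¹, b⁻¹}

/-- all functions with integral zero are moved by `a` and `b` by at least the proportion `c` -/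
def Unif [MeasurableSpace SO3] (μ : Measure SO3) (c : ℝ) (a b : SO3) : Prop :=
  ∀ f : SO3 → ℂ, MemLp f 2 μ → ∫ g, f g ∂μ = 0 →
    c * ∫ g, ‖f g‖ ^ 2 ∂μ ≤
      (∫ g, ‖f (a * g) - f g‖ ^ 2 ∂μ) + ∫ g, ‖f (b * g) - f g‖ ^ 2 ∂μ

/-- EQV -/
def StmEqv [MeasurableSpace SO3] [BorelSpace SO3] : Prop :=
  ∀ (μ : Measure SO3) [μ.IsHaarMeasure] [IsProbabilityMeasure μ] (a b : SO3),
    HasGap μ (gens a b) ↔ ∃ c : ℝ, 0 < c ∧ Unif μ c a b

/-- CLOSED -/
def StmClosed [MeasurableSpace SO3] [BorelSpace SO3] : Prop :=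
  ∀ (μ : Measure SO3) [μ.IsHaarMeasure] [IsProbabilityMeasure μ] (c : ℝ),
    IsClosed {z : SO3 × SO3 | Unif μ c z.1 z.2}

/-- WORD -/
def StmWord [MeasurableSpace SO3] [BorelSpace SO3] : Prop :=
  ∀ (μ : Measure SO3) [μ.IsHaarMeasure] [IsProbabilityMeasure μ] (a b a' b' : SO3) (c : ℝ),
    0 < c → a' ∈ Subgroup.closure {a, b} → b' ∈ Subgroup.closure {a, b} → Unif μ c a' b' →
    ∃ c' : ℝ, 0 < c' ∧ Unif μ c' a b

end Pool.Agent.K1H92.ZO
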