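import Pool.Agent.K1H92.ZO.ZeroOne

/-!
# Zero-one laws: topological part
-/

set_option autoImplicit false

open MeasureTheory Set Filter Topology

namespace Pool.Agent.K1H92.ZO

/-- value of a word -/
noncomputable def ev (z : SO3 × SO3) (w : FreeGroup Bool) : SO3 :=
  FreeGroup.lift (fun i => cond i z.1 z.2) w

lemma ev_mem (z : SO3 × SO3) (w : FreeGroup Bool) :
    ev z w ∈ Subgroup.closure ({z.1, z.2} : Set SO3) := by
  have h : ev z w ∈ (FreeGroup.lift (fun i : Bool => cond i z.1 z.2)).range := ⟨w, rfl⟩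
  rw [FreeGroup.range_lift_eq_closure] at h
  refine Subgroup.closure_mono ?_ h
  rintro _ ⟨i, rfl⟩
  cases i <;> simp

lemma exists_ev (z : SO3 × SO3) {c : SO3} (hc : c ∈ Subgroup.closure ({z.1, z.2} : Set SO3)) :
    ∃ w, ev z w = c := by
  have h : Subgroup.closure ({z.1, z.2} : Set SO3) ≤
      (FreeGroup.lift (fun i : Bool => cond i z.1 z.2)).range := by
    rw [FreeGroup.range_lift_eq_closure]
    refine Subgroup.closure_mono ?_
    rintro x (rfl | rfl)
    · exact ⟨true, rfl⟩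
    · exact ⟨false, rfl⟩
  exact h hc

lemma continuous_ev (w : FreeGroup Bool) : Continuous fun z => ev z w := by
  refine FreeGroup.induction_on (C := fun w => Continuous fun z => ev z w) w ?_ ?_ ?_ ?_
  · simp only [ev, map_one]; exact continuous_const
  · intro i
    simp only [ev, FreeGroup.lift_apply_of]
    cases i
    · exact continuous_snd
    · exact continuous_fst
  · intro i h
    simp only [ev, map_inv] at h ⊢
    exact h.inv
  · intro x y hx hy
    simp only [ev, map_mul] at hx hy ⊢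
    exact hx.mul hy

/-- the pairs from which one can reach `U` by words -/
def reach (U : Set (SO3 × SO3)) : Set (SO3 × SO3) :=
  {z | ∃ a' ∈ Subgroup.closure ({z.1, z.2} : Set SO3),
    ∃ b' ∈ Subgroup.closure ({z.1, z.2} : Set SO3), (a', b') ∈ U}

lemma subset_reach (U : Set (SO3 × SO3)) : U ⊆ reach U := fun z hz =>
  ⟨z.1, mem_cl_left _ _, z.2, mem_cl_right _ _, hz⟩

lemma reach_eq (U : Set (SO3 × SO3)) :
    reach U = ⋃ w : FreeGroup Bool × FreeGroup Bool, (fun z => (ev z w.1, ev z w.2)) ⁻¹' U := by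
  ext z
  simp only [mem_iUnion, mem_preimage]
  constructor
  · rintro ⟨a', ha, b', hb, h⟩
    obtain ⟨w1, h1⟩ := exists_ev z ha
    obtain ⟨w2, h2⟩ := exists_ev z hb
    exact ⟨(w1, w2), by simp only [h1, h2]; exact h⟩
  · rintro ⟨w, h⟩
    exact ⟨_, ev_mem z w.1, _, ev_mem z w.2, h⟩

lemma isOpen_reach {U : Set (SO3 × SO3)} (hU : IsOpen U) : IsOpen (reach U) := by
  rw [reach_eq]
  exact isOpen_iUnion fun w => hU.preimage ((continuous_ev w.1).prodMk (continuous_ev w.2))

lemma BI_reach (U : Set (SO3 × SO3)) : BI (reach U) := by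
  intro a b a' b' ha hb ⟨c, hc, d, hd, h⟩
  have hle : Subgroup.closure ({a', b'} : Set SO3) ≤ Subgroup.closure ({a, b} : Set SO3) := by
    rw [Subgroup.closure_le]
    rintro x (rfl | rfl)
    · exact ha
    · exact hb
  exact ⟨c, hle hc, d, hle hd, h⟩

/-- the pairs which generate a dense subgroup -/
def genPairs : Set (SO3 × SO3) :=
  {z | Dense (Subgroup.closure ({z.1, z.2} : Set SO3) : Set SO3)}

lemma genPairs_subset_reach {U : Set (SO3 × SO3)} (hU : IsOpen U) (hne : U.Nonempty) :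
    genPairs ⊆ reach U := by
  intro z hz
  have hd : Dense ((Subgroup.closure ({z.1, z.2} : Set SO3) : Set SO3) ×ˢ
      (Subgroup.closure ({z.1, z.2} : Set SO3) : Set SO3)) := Dense.prod hz hz
  obtain ⟨y, hy1, hy2⟩ := hd.inter_open_nonempty U hU hne
  exact ⟨y.1, hy2.1, y.2, hy2.2, hy1⟩

variable [MeasurableSpace SO3] [BorelSpace SO3]

/-- the zero-one law as a hypothesis -/
def Law (μ : Measure SO3) : Prop := ∀ O : Set (SO3 × SO3), MeasurableSet O → BI O →
  (μ.prod μ) O = 0 ∨ (μ.prod μ) Oᶜ = 0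

section

variable {μ : Measure SO3} [μ.IsHaarMeasure] [IsProbabilityMeasure μ]

lemma conull_of_isOpen (h : Law μ) {O : Set (SO3 × SO3)} (hO : IsOpen O) (hne : O.Nonempty)
    (hBI : BI O) : (μ.prod μ) Oᶜ = 0 := by
  rcases h O hO.measurableSet hBI with h | h
  · exact absurd h (hO.measure_ne_zero _ hne)
  · exact h

lemma dense_of_isOpen (h : Law μ) {O : Set (SO3 × SO3)} (hO : IsOpen O) (hne : O.Nonempty)
    (hBI : BI O) : Dense O := by
  have h1 : ∀ᵐ z ∂(μ.prod μ), z ∈ O := conull_of_isOpen h hO hne hBI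
  exact Measure.dense_of_ae h1

/-- `genPairs` contains a countable intersection of sets `reach U` -/
lemma genPairs_eq : genPairs = ⋂ W ∈ {W ∈ TopologicalSpace.countableBasis SO3 | W.Nonempty},
    reach (W ×ˢ (univ : Set SO3)) := by
  ext z
  simp only [mem_iInter]
  constructor
  · intro hz W hW
    exact genPairs_subset_reach
      (((TopologicalSpace.isBasis_countableBasis SO3).isOpen hW.1).prod isOpen_univ)
      (by obtain ⟨x, hx⟩ := hW.2; exact ⟨(x, 1), hx, trivial⟩) hz
  · intro h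
    show Dense _
    rw [dense_iff_inter_open]
    intro U hU hne
    obtain ⟨x, hx⟩ := hne
    obtain ⟨W, hW, hxW, hWU⟩ :=
      (TopologicalSpace.isBasis_countableBasis SO3).exists_subset_of_mem_open hx hU
    obtain ⟨a', ha, b', -, hab⟩ := h W ⟨hW, ⟨x, hxW⟩⟩
    exact ⟨a', hWU hab.1, ha⟩

lemma countable_basis' :
    {W ∈ TopologicalSpace.countableBasis SO3 | W.Nonempty}.Countable :=
  (TopologicalSpace.countable_countableBasis SO3).mono fun _ h => h.1

lemma genPairs_conull (h : Law μ) : (μ.prod μ) genPairsᶜ = 0 := by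
  rw [genPairs_eq, compl_iInter₂]
  refine (measure_biUnion_null_iff countable_basis').2 fun W hW => ?_
  exact conull_of_isOpen h
    (isOpen_reach (((TopologicalSpace.isBasis_countableBasis SO3).isOpen hW.1).prod isOpen_univ))
    (by obtain ⟨x, hx⟩ := hW.2; exact ⟨(x, 1), subset_reach _ ⟨hx, trivial⟩⟩) (BI_reach _)

lemma genPairs_residual (h : Law μ) : genPairs ∈ residual (SO3 × SO3) := by
  rw [genPairs_eq]
  refine (countable_bInter_mem countable_basis').2 fun W hW => ?_
  have ho := isOpen_reach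
    (((TopologicalSpace.isBasis_countableBasis SO3).isOpen hW.1).prod
      (isOpen_univ : IsOpen (univ : Set SO3)))
  refine residual_of_dense_open ho (dense_of_isOpen h ho ?_ (BI_reach _))
  obtain ⟨x, hx⟩ := hW.2
  exact ⟨(x, 1), subset_reach _ ⟨hx, trivial⟩⟩

/-- the pairs with a spectral gap -/
def gapPairs (μ : Measure SO3) : Set (SO3 × SO3) := {z | HasGap μ (gens z.1 z.2)}

lemma Unif.mono {μ : Measure SO3} {c c' : ℝ} {a b : SO3} (h : Unif μ c a b) (hc : c' ≤ c) :
    Unif μ c' a b := by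
  intro f hf h0
  refine le_trans ?_ (h f hf h0)
  exact mul_le_mul_of_nonneg_right hc (integral_nonneg fun _ => by positivity)

lemma gapPairs_eq (he : StmEqv) :
    gapPairs μ = ⋃ n : ℕ, {z : SO3 × SO3 | Unif μ (1 / ((n : ℝ) + 1)) z.1 z.2} := by
  ext z
  simp only [mem_iUnion]
  show HasGap μ (gens z.1 z.2) ↔ _
  rw [he μ z.1 z.2]
  constructor
  · rintro ⟨c, hc, h⟩
    obtain ⟨n, hn⟩ := exists_nat_one_div_lt hc
    exact ⟨n, h.mono hn.le⟩
  · rintro ⟨n, h⟩
    exact ⟨_, Nat.one_div_pos_of_nat, h⟩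

lemma measurableSet_gapPairs (he : StmEqv) (hcl : StmClosed) : MeasurableSet (gapPairs μ) := by
  rw [gapPairs_eq he]
  exact MeasurableSet.iUnion fun n => (hcl μ _).measurableSet

lemma BI_gapPairs (he : StmEqv) (hw : StmWord) : BI (gapPairs μ) := by
  intro a b a' b' ha hb h
  obtain ⟨c, hc, h'⟩ := (he μ a' b').1 h
  obtain ⟨c', hc', h''⟩ := hw μ a b a' b' c hc ha hb h'
  exact (he μ a b).2 ⟨c', hc', h''⟩

/-- if the set of the pairs with a gap is not meagre then it has interior points -/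
lemma exists_open (he : StmEqv) (hcl : StmClosed) (hm : ¬ IsMeagre (gapPairs μ)) :
    ∃ c : ℝ, 0 < c ∧ ∃ U : Set (SO3 × SO3), IsOpen U ∧ U.Nonempty ∧
      ∀ z ∈ U, Unif μ c z.1 z.2 := by
  by_contra hcon
  apply hm
  rw [gapPairs_eq he]
  refine isMeagre_iUnion fun n => IsNowhereDense.isMeagre ?_
  rw [(hcl μ _).isNowhereDense_iff]
  by_contra hne
  exact hcon ⟨1 / ((n : ℝ) + 1), Nat.one_div_pos_of_nat,
    interior {z : SO3 × SO3 | Unif μ (1 / ((n : ℝ) + 1)) z.1 z.2}, isOpen_interior,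
    nonempty_iff_ne_empty.2 hne, fun z hz => interior_subset hz⟩

/-- **Topological part of the main theorem.** -/
theorem baire (h : Law μ) (he : StmEqv) (hcl : StmClosed) (hw : StmWord)
    (hm : ¬ IsMeagre (gapPairs μ)) :
    ∃ O : Set (SO3 × SO3), IsOpen O ∧ Dense O ∧ genPairs ⊆ O ∧ O ⊆ gapPairs μ ∧
      (μ.prod μ) Oᶜ = 0 := by
  obtain ⟨c, hc, U, hU, hne, hUc⟩ := exists_open he hcl hm
  have ho : IsOpen (reach U) := isOpen_reach hU
  have hne' : (reach U).Nonempty := hne.mono (subset_reach U)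
  have h1 : Dense (reach U) := dense_of_isOpen h ho hne' (BI_reach U)
  have h2 : genPairs ⊆ reach U := genPairs_subset_reach hU hne
  have h3 : reach U ⊆ gapPairs μ := by
    rintro ⟨a, b⟩ ⟨a', ha, b', hb, hab⟩
    have h4 : (a', b') ∈ gapPairs μ := (he μ a' b').2 ⟨c, hc, hUc (a', b') hab⟩
    exact BI_gapPairs he hw a b a' b' ha hb h4
  have h5 : (μ.prod μ) (reach U)ᶜ = 0 := conull_of_isOpen h ho hne' (BI_reach U)
  exact ⟨reach U, ho, h1, h2, h3, h5⟩

end

end Pool.Agent.K1H92.ZO
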