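import Pool.Agent.K1H92.ZO.Defs

set_option autoImplicit false

open MeasureTheory Set Filter

namespace Pool.Agent.K1H92.ZO

/-- `r cot (π t)` -/
noncomputable def gg (r t : ℝ) : ℝ := r * Real.cos (Real.pi * t) / Real.sin (Real.pi * t)

lemma gg_periodic (r : ℝ) : Function.Periodic (gg r) 1 := by
  intro t
  unfold gg
  rw [mul_add, mul_one, Real.cos_add_pi, Real.sin_add_pi, mul_neg, neg_div_neg_eq]

lemma measurable_gg (r : ℝ) : Measurable (gg r) := by
  unfold gg
  fun_prop

/-- the function on the circle -/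
noncomputable def lg (r : ℝ) : UnitAddCircle → ℝ := (gg_periodic r).lift

lemma lg_coe (r t : ℝ) : lg r (t : UnitAddCircle) = gg r t := (gg_periodic r).lift_coe t

lemma measurable_lg (r : ℝ) : Measurable (lg r) := by
  have e : lg r = (fun t : Ioc (0 : ℝ) (0 + 1) => gg r t) ∘ (AddCircle.measurableEquivIoc 1 0) := by
    funext y
    have hy : (((AddCircle.measurableEquivIoc (1 : ℝ) 0) y : ℝ) : UnitAddCircle) = y :=
      (AddCircle.measurableEquivIoc (1 : ℝ) 0).symm_apply_apply y
    conv_lhs => rw [← hy, lg_coe]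
    rfl
  rw [e]
  exact ((measurable_gg r).comp measurable_subtype_coe).comp
    (AddCircle.measurableEquivIoc (1 : ℝ) 0).measurable

lemma vol_zero : volume ({0} : Set UnitAddCircle) = 0 := by
  have hmp := AddCircle.measurePreserving_mk (1 : ℝ) 0
  have h1 := hmp.measure_preimage
    (MeasurableSet.singleton (0 : UnitAddCircle)).nullMeasurableSet
  rw [← h1, Measure.restrict_apply (hmp.measurable (MeasurableSet.singleton _))]
  refine measure_mono_null (t := range fun n : ℤ => (n : ℝ)) ?_
    (Set.Countable.measure_zero (countable_range _) _)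
  rintro t ⟨ht, -⟩
  have ht' : (t : UnitAddCircle) = 0 := ht
  rw [AddCircle.coe_eq_zero_iff] at ht'
  obtain ⟨n, hn⟩ := ht'
  exact ⟨n, by rw [← hn]; simp⟩

lemma mp_two : MeasurePreserving (fun y : UnitAddCircle => (2 : ℕ) • y) volume volume :=
  (AddCircle.ergodic_nsmul (T := (1 : ℝ)) (n := 2) (by norm_num)).toMeasurePreserving

lemma vol_two : volume ((fun y : UnitAddCircle => (2 : ℕ) • y) ⁻¹' {0}) = 0 :=
  (mp_two.measure_preimage
    (MeasurableSet.singleton (0 : UnitAddCircle)).nullMeasurableSet).trans vol_zero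

lemma ae_two : ∀ᵐ y : UnitAddCircle, ¬ ((2 : ℕ) • y = 0) :=
  compl_mem_ae_iff.2 vol_two

lemma lg_two {r : ℝ} (hr : 0 < r) {y : UnitAddCircle} (hy : (2 : ℕ) • y ≠ 0) :
    lg r y ≠ 0 ∧ lg r ((2 : ℕ) • y) = ((lg r y) ^ 2 - r ^ 2) / (2 * lg r y) := by
  induction y using QuotientAddGroup.induction_on with
  | H t =>
    have e2 : (2 : ℕ) • ((t : ℝ) : UnitAddCircle) = ((2 * t : ℝ) : UnitAddCircle) := by
      rw [two_nsmul, two_mul]; rfl
    have hs2 : Real.sin (Real.pi * (2 * t)) ≠ 0 := by
      intro h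
      obtain ⟨n, hn⟩ := Real.sin_eq_zero_iff.1 h
      apply hy
      show (2 : ℕ) • ((t : ℝ) : UnitAddCircle) = 0
      rw [e2]
      have : 2 * t = (n : ℝ) := by
        have hpi := Real.pi_ne_zero
        have h3 : Real.pi * (2 * t - n) = 0 := by linarith
        rcases mul_eq_zero.1 h3 with h4 | h4
        · exact absurd h4 hpi
        · linarith
      rw [this, AddCircle.coe_eq_zero_iff]
      exact ⟨n, by simp⟩
    have hsc : Real.sin (Real.pi * (2 * t)) = 2 * Real.sin (Real.pi * t) * Real.cos (Real.pi * t) := by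
      rw [← Real.sin_two_mul]; ring_nf
    have hcc : Real.cos (Real.pi * (2 * t)) =
        Real.cos (Real.pi * t) ^ 2 - Real.sin (Real.pi * t) ^ 2 := by
      rw [← Real.cos_two_mul']; ring_nf
    have hs : Real.sin (Real.pi * t) ≠ 0 := by
      intro h; apply hs2; rw [hsc, h]; ring
    have hc : Real.cos (Real.pi * t) ≠ 0 := by
      intro h; apply hs2; rw [hsc, h]; ring
    have e1 : lg r (QuotientAddGroup.mk t) = gg r t := lg_coe r t
    have e3 : lg r ((2 : ℕ) • (QuotientAddGroup.mk t : UnitAddCircle)) = gg r (2 * t) := by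
      have := lg_coe r (2 * t)
      rw [← e2] at this
      exact this
    rw [e1, e3]
    unfold gg
    rw [hsc, hcc]
    constructor
    · have := hr.ne'
      positivity
    · field_simp

lemma transfer {r : ℝ} (hr : 0 < r) {E : Set ℝ} (hE : MeasurableSet E)
    (h : volume (lg r ⁻¹' E) = 0) : volume E = 0 := by
  have hmp := AddCircle.measurePreserving_mk (1 : ℝ) 0
  have hm : MeasurableSet (lg r ⁻¹' E) := measurable_lg r hE
  have h1 : volume.restrict (Ioc (0 : ℝ) (0 + 1)) ((fun t : ℝ => (t : UnitAddCircle)) ⁻¹' (lg r ⁻¹' E)) = 0 := by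
    rw [hmp.measure_preimage hm.nullMeasurableSet, h]
  have h2 : volume ({t : ℝ | gg r t ∈ E} ∩ Ioo (0 : ℝ) 1) = 0 := by
    rw [Measure.restrict_apply (hmp.measurable hm)] at h1
    refine measure_mono_null ?_ h1
    rintro t ⟨ht, ht0, ht1⟩
    refine ⟨?_, ht0, by rw [zero_add]; exact ht1.le⟩
    show lg r (t : UnitAddCircle) ∈ E
    rw [lg_coe]; exact ht
  have hd : DifferentiableOn ℝ (gg r) ({t : ℝ | gg r t ∈ E} ∩ Ioo (0 : ℝ) 1) := by
    intro t ht
    have hs : Real.sin (Real.pi * t) ≠ 0 := by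
      have : 0 < Real.sin (Real.pi * t) := Real.sin_pos_of_pos_of_lt_pi
        (mul_pos Real.pi_pos ht.2.1) (by nlinarith [Real.pi_pos, ht.2.2])
      exact this.ne'
    have h1 : DifferentiableAt ℝ (fun t : ℝ => r * Real.cos (Real.pi * t)) t := by fun_prop
    have h2 : DifferentiableAt ℝ (fun t : ℝ => Real.sin (Real.pi * t)) t := by fun_prop
    exact (h1.div h2 hs).differentiableWithinAt
  have h3 := addHaar_image_eq_zero_of_differentiableOn_of_addHaar_eq_zero volume hd h2
  refine measure_mono_null ?_ h3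
  intro x hx
  set t : ℝ := (Real.pi / 2 - Real.arctan (x / r)) / Real.pi with ht
  have hpt : Real.pi * t = Real.pi / 2 - Real.arctan (x / r) := by
    rw [ht]; field_simp
  have hg : gg r t = x := by
    unfold gg
    rw [hpt, Real.cos_pi_div_two_sub, Real.sin_pi_div_two_sub]
    have h5 : Real.sin (Real.arctan (x / r)) / Real.cos (Real.arctan (x / r)) = x / r := by
      rw [← Real.tan_eq_sin_div_cos, Real.tan_arctan]
    rw [mul_div_assoc, h5]
    field_simp
  have h6 := Real.arctan_lt_pi_div_two (x / r)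
  have h7 := Real.neg_pi_div_two_lt_arctan (x / r)
  refine ⟨t, ⟨?_, ?_, ?_⟩, hg⟩
  · show gg r t ∈ E
    rw [hg]; exact hx
  · have : 0 < Real.pi * t := by rw [hpt]; linarith
    exact (pos_iff_pos_of_mul_pos this).1 Real.pi_pos
  · have : Real.pi * t < Real.pi * 1 := by rw [hpt]; linarith
    exact lt_of_mul_lt_mul_left this Real.pi_pos.le

theorem circ : StmCirc := by
  intro r E hr hE h
  have hm : MeasurableSet (lg r ⁻¹' E) := measurable_lg r hE
  have herg := AddCircle.ergodic_nsmul (T := (1 : ℝ)) (n := 2) (by norm_num)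
  have hle : (fun y : UnitAddCircle => (2 : ℕ) • y) ⁻¹' (lg r ⁻¹' E) ≤ᵐ[volume] lg r ⁻¹' E := by
    filter_upwards [ae_two] with y hy hy2
    obtain ⟨h1, h2⟩ := lg_two hr hy
    have h3 : lg r ((2 : ℕ) • y) ∈ E := hy2
    rw [h2] at h3
    exact h _ h1 h3
  rcases herg.ae_empty_or_univ_of_preimage_ae_le' hm.nullMeasurableSet hle
    (measure_ne_top _ _) with h1 | h1
  · left
    exact transfer hr hE (ae_eq_empty.1 h1)
  · right
    refine transfer hr hE.compl ?_
    rw [preimage_compl]
    exact ae_eq_univ.1 h1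

end Pool.Agent.K1H92.ZO
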