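import Pool.Agent.K1H92.ZO.Baire
import Pool.Agent.K1H10.ZO.Closed
import Pool.Agent.K1H24.ZO.Core1
import Pool.Agent.K1H63.ZO.Core2A
import Pool.Agent.K1H68.ZO.Haar
import Pool.Agent.K1H99.ZO.Gap

/-!
# Zero-one laws for the spectral gap of pairs of rotations: assembly
-/

set_option autoImplicit false

open MeasureTheory Set Filter Topology

namespace Pool.Agent.K1H92.ZO

theorem core2 : StmCore2 := fun S D hS hD h hsw hmul hsc =>
  core2b S D hD h hsw (Pool.Agent.K1H63.ZO.core2a S D hS hD h hmul hsc)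

variable [MeasurableSpace SO3] [BorelSpace SO3]

theorem law_of (hcirc : StmCirc) (hrot : StmRot) (μ : Measure SO3) [μ.IsHaarMeasure]
    [IsProbabilityMeasure μ] : Law μ := fun O hO hBI =>
  zero_one hcirc Pool.Agent.K1H24.ZO.core1 core2 hrot
    (Pool.Agent.K1H68.ZO.haar hrot Pool.Agent.K1H63.ZO.nsq_qmul) μ O hO hBI

/-- a finite symmetric set generating a dense subgroup has a gap, if `gapPairs` is not meagre -/
theorem gap_of_dense (μ : Measure SO3) [μ.IsHaarMeasure] [IsProbabilityMeasure μ]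
    (hm : ¬ IsMeagre (gapPairs μ)) (S : Finset SO3) (hS : ∀ s ∈ S, s⁻¹ ∈ S)
    (hd : Dense (Subgroup.closure (S : Set SO3) : Set SO3)) : HasGap μ S := by
  obtain ⟨c, hc, U, hU, hne, hUc⟩ :=
    exists_open Pool.Agent.K1H99.ZO.eqv Pool.Agent.K1H10.ZO.closed hm
  obtain ⟨y, hy1, hy2⟩ := (Dense.prod hd hd).inter_open_nonempty U hU hne
  exact Pool.Agent.K1H99.ZO.fin μ S hS y.1 y.2 c hc hy2.1 hy2.2 (hUc y hy1)

lemma closure_gens (a b : SO3) :
    Subgroup.closure ({a, b} : Set SO3) ≤ Subgroup.closure ((gens a b : Finset SO3) : Set SO3) := by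
  refine Subgroup.closure_mono ?_
  rintro x (rfl | rfl) <;> simp [gens]

lemma gens_symm (a b : SO3) : ∀ s ∈ gens a b, s⁻¹ ∈ gens a b := by
  intro s hs
  simp only [gens, Finset.mem_insert, Finset.mem_singleton] at hs ⊢
  rcases hs with rfl | rfl | rfl | rfl <;> simp

theorem main (hcirc : StmCirc) (hrot : StmRot) (μ : Measure SO3) [μ.IsHaarMeasure]
    [IsProbabilityMeasure μ] :
    -- the general zero-one law
    (∀ O : Set (SO3 × SO3), MeasurableSet O → BI O → (μ.prod μ) O = 0 ∨ (μ.prod μ) Oᶜ = 0) ∧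
    -- measure
    (MeasurableSet (gapPairs μ) ∧
      ((μ.prod μ) (gapPairs μ) = 0 ∨ (μ.prod μ) (gapPairs μ)ᶜ = 0)) ∧
    -- generating pairs
    (genPairs ∈ residual (SO3 × SO3) ∧ (μ.prod μ) genPairsᶜ = 0) ∧
    -- category
    (¬ IsMeagre (gapPairs μ) → ∃ O : Set (SO3 × SO3), IsOpen O ∧ Dense O ∧
      (μ.prod μ) Oᶜ = 0 ∧ genPairs ⊆ O ∧ O ⊆ gapPairs μ) ∧
    (gapPairs μ ∈ residual (SO3 × SO3) ↔ ∀ S : Finset SO3, (∀ s ∈ S, s⁻¹ ∈ S) →
      Dense (Subgroup.closure (S : Set SO3) : Set SO3) → HasGap μ S) ∧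
    (gapPairs μ ∈ residual (SO3 × SO3) → (μ.prod μ) (gapPairs μ)ᶜ = 0) := by
  have hlaw : Law μ := law_of hcirc hrot μ
  have hmeas : MeasurableSet (gapPairs μ) :=
    measurableSet_gapPairs Pool.Agent.K1H99.ZO.eqv Pool.Agent.K1H10.ZO.closed
  have hBI : BI (gapPairs μ) := BI_gapPairs Pool.Agent.K1H99.ZO.eqv Pool.Agent.K1H99.ZO.word
  have hcat : ¬ IsMeagre (gapPairs μ) → ∃ O : Set (SO3 × SO3), IsOpen O ∧ Dense O ∧
      (μ.prod μ) Oᶜ = 0 ∧ genPairs ⊆ O ∧ O ⊆ gapPairs μ := by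
    intro hm
    obtain ⟨O, h1, h2, h3, h4, h5⟩ := baire hlaw Pool.Agent.K1H99.ZO.eqv
      Pool.Agent.K1H10.ZO.closed Pool.Agent.K1H99.ZO.word hm
    exact ⟨O, h1, h2, h5, h3, h4⟩
  have hres : gapPairs μ ∈ residual (SO3 × SO3) → ¬ IsMeagre (gapPairs μ) :=
    fun h => not_isMeagre_of_mem_residual h
  refine ⟨hlaw, ⟨hmeas, hlaw _ hmeas hBI⟩, ⟨genPairs_residual hlaw, genPairs_conull hlaw⟩, hcat,
    ⟨fun h S hS hd => gap_of_dense μ (hres h) S hS hd, fun h => ?_⟩, fun h => ?_⟩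
  · refine mem_of_superset (genPairs_residual hlaw) fun z hz => ?_
    exact h (gens z.1 z.2) (gens_symm _ _) (Dense.mono (closure_gens z.1 z.2) hz)
  · obtain ⟨O, -, -, h5, -, h4⟩ := hcat (hres h)
    exact measure_mono_null (compl_subset_compl.2 h4) h5

end Pool.Agent.K1H92.ZO
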