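import Pool.Agent.K1H92.ZO.Defs

/-!
# Zero-one law for sets of pairs of rotations which are backwards invariant under words
-/

set_option autoImplicit false

open MeasureTheory Set Filter

namespace Pool.Agent.K1H92.ZO

/-- backwards invariance under the endomorphisms of the free group of rank two -/
def BI (O : Set (SO3 × SO3)) : Prop :=
  ∀ a b a' b' : SO3, a' ∈ Subgroup.closure ({a, b} : Set SO3) →
    b' ∈ Subgroup.closure ({a, b} : Set SO3) → (a', b') ∈ O → (a, b) ∈ O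

lemma mem_cl_left (a b : SO3) : a ∈ Subgroup.closure ({a, b} : Set SO3) :=
  Subgroup.subset_closure (by simp)

lemma mem_cl_right (a b : SO3) : b ∈ Subgroup.closure ({a, b} : Set SO3) :=
  Subgroup.subset_closure (by simp)

instance : SecondCountableTopology SO3 := by
  have : SecondCountableTopology (Matrix (Fin 3) (Fin 3) ℝ) :=
    inferInstanceAs (SecondCountableTopology (Fin 3 → Fin 3 → ℝ))
  exact TopologicalSpace.Subtype.secondCountableTopology _

lemma ae_ne_zero : ∀ᵐ z : V × X, z.1 ≠ 0 := by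
  have h : ∀ᵐ v : V, v ≠ 0 := by
    rw [ae_iff]
    simp
  exact Measure.quasiMeasurePreserving_fst.ae h

/-- deduction of the second half of CORE2 -/
lemma core2b (S : Set (X × X)) (D : Set (V × V)) (hD : MeasurableSet D)
    (h : ∀ᵐ z : X × X, (z ∈ S ↔ (z.1.2, z.2.2) ∈ D))
    (hsw : ∀ p q, (p, q) ∈ S ↔ (q, p) ∈ S)
    (hc : ∀ᵐ z : V × V, ∀ᵐ u : V, (z ∈ D ↔ (u, z.2) ∈ D)) :
    volume S = 0 ∨ volume Sᶜ = 0 := by
  -- choose `v0`
  have h1 : ∀ᵐ v : V, ∀ᵐ w : V, ∀ᵐ u : V, ((v, w) ∈ D ↔ (u, w) ∈ D) :=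
    Measure.ae_ae_of_ae_prod (p := fun z : V × V => ∀ᵐ u : V, (z ∈ D ↔ (u, z.2) ∈ D)) hc
  obtain ⟨v0, hv0⟩ := h1.exists
  set D2 : Set V := {w | (v0, w) ∈ D} with hD2
  have hD2m : MeasurableSet D2 := hD.preimage measurable_prodMk_left
  have hm : MeasurableSet {z : V × V | (z.2 ∈ D2 ↔ z ∈ D)} := by
    have e : {z : V × V | (z.2 ∈ D2 ↔ z ∈ D)} =
        ((Prod.snd ⁻¹' D2) ∩ D) ∪ ((Prod.snd ⁻¹' D2)ᶜ ∩ Dᶜ) := by
      ext z; simp only [mem_ofPred_eq, mem_union, mem_inter_iff, mem_preimage, mem_compl_iff]; tauto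
    rw [e]
    exact ((measurable_snd hD2m).inter hD).union ((measurable_snd hD2m).compl.inter hD.compl)
  have h2 : ∀ᵐ z : V × V, (z.2 ∈ D2 ↔ z ∈ D) := by
    have h3 : ∀ᵐ w : V, ∀ᵐ u : V, (w ∈ D2 ↔ (u, w) ∈ D) := hv0
    have h4 : ∀ᵐ u : V, ∀ᵐ w : V, (w ∈ D2 ↔ (u, w) ∈ D) :=
      (Measure.ae_ae_comm (μ := (volume : Measure V)) (ν := (volume : Measure V))
        (p := fun u w => (w ∈ D2 ↔ (u, w) ∈ D)) hm).2 h3
    exact (Measure.ae_prod_iff_ae_ae hm).2 h4
  -- pull back to `X × X`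
  have hq : Measure.QuasiMeasurePreserving (Prod.map Prod.snd Prod.snd : X × X → V × V)
      volume volume :=
    QuasiMeasurePreserving.prodMap Measure.quasiMeasurePreserving_snd
      Measure.quasiMeasurePreserving_snd
  have h5 : ∀ᵐ z : X × X, (z ∈ S ↔ z.2.2 ∈ D2) := by
    have h6 := hq.ae h2
    filter_upwards [h, h6] with z hz hz'
    rw [hz]
    exact hz'.symm
  have h7 : ∀ᵐ z : X × X, (z ∈ S ↔ z.1.2 ∈ D2) := by
    have h8 : ∀ᵐ z : X × X, (z.swap ∈ S ↔ z.swap.2.2 ∈ D2) :=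
      (Measure.measurePreserving_swap (μ := (volume : Measure X))
        (ν := (volume : Measure X))).quasiMeasurePreserving.ae h5
    filter_upwards [h8] with z hz
    rw [show z = (z.1, z.2) from rfl, hsw z.1 z.2]
    exact hz
  have h9 : ∀ᵐ z : X × X, (z.2.2 ∈ D2 ↔ z.1.2 ∈ D2) := by
    filter_upwards [h5, h7] with z hz hz'
    rw [← hz, ← hz']
  have h10 : ∀ᵐ p : X, ∀ᵐ q : X, (q.2 ∈ D2 ↔ p.2 ∈ D2) :=
    Measure.ae_ae_of_ae_prod (p := fun z : X × X => (z.2.2 ∈ D2 ↔ z.1.2 ∈ D2)) h9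
  obtain ⟨p, hp⟩ := h10.exists
  have h11 : ∀ᵐ z : X × X, (z.2.2 ∈ D2 ↔ p.2 ∈ D2) :=
    Measure.quasiMeasurePreserving_snd.ae hp
  by_cases hp2 : p.2 ∈ D2
  · right
    have : ∀ᵐ z : X × X, z ∈ S := by
      filter_upwards [h5, h11] with z hz hz'
      exact hz.2 (hz'.2 hp2)
    exact ae_iff.1 this
  · left
    have : ∀ᵐ z : X × X, z ∉ S := by
      filter_upwards [h5, h11] with z hz hz'
      intro hS'
      exact hp2 (hz'.1 (hz.1 hS'))
    simpa [ae_iff] using this

variable [MeasurableSpace SO3] [BorelSpace SO3]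

/-- **Zero-one law.** -/
theorem zero_one (hcirc : StmCirc) (hcore1 : StmCore1) (hcore2 : StmCore2) (hrot : StmRot)
    (hhaar : StmHaar) (μ : Measure SO3) [μ.IsHaarMeasure] [IsProbabilityMeasure μ]
    (O : Set (SO3 × SO3)) (hO : MeasurableSet O) (hBI : BI O) :
    (μ.prod μ) O = 0 ∨ (μ.prod μ) Oᶜ = 0 := by
  set S : Set (X × X) := {z | (R z.1, R z.2) ∈ O} with hSdef
  have hRR : Measurable fun z : X × X => (R z.1, R z.2) :=
    (hrot.meas.comp measurable_fst).prodMk (hrot.meas.comp measurable_snd)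
  have hS : MeasurableSet S := hRR hO
  have hsw : ∀ p q, (p, q) ∈ S ↔ (q, p) ∈ S := by
    have key : ∀ p q, (p, q) ∈ S → (q, p) ∈ S := fun p q h =>
      hBI _ _ _ _ (mem_cl_right _ _) (mem_cl_left _ _) h
    exact fun p q => ⟨key p q, key q p⟩
  have hmul : ∀ p q, nsq p ≠ 0 → nsq q ≠ 0 → ((qmul p q, q) ∈ S ↔ (p, q) ∈ S) := by
    intro p q hp hq
    have e : R (qmul p q) = R p * R q := hrot.mul p q hp hq
    constructor
    · intro h
      have h' : (R (qmul p q), R q) ∈ O := h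
      rw [e] at h'
      exact hBI _ _ _ _ (mul_mem (mem_cl_left _ _) (mem_cl_right _ _)) (mem_cl_right _ _) h'
    · intro h
      have h' : (R p, R q) ∈ O := h
      show (R (qmul p q), R q) ∈ O
      rw [e]
      refine hBI _ _ _ _ ?_ (mem_cl_right _ _) h'
      have : R p = (R p * R q) * (R q)⁻¹ := by rw [mul_inv_cancel_right]
      rw [this]
      conv => arg 1; arg 1; rw [← this]
      exact mul_mem (mem_cl_left _ _) (inv_mem (mem_cl_right _ _))
  have hsc : ∀ (c : ℝ) p q, c ≠ 0 → ((c • p, q) ∈ S ↔ (p, q) ∈ S) := by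
    intro c p q hc
    show (R (c • p), R q) ∈ O ↔ (R p, R q) ∈ O
    rw [hrot.smul c p hc]
  have hsec : ∀ᵐ z : V × X, volume {x : ℝ | ((x, z.1), z.2) ∈ S} = 0 ∨
      volume {x : ℝ | ((x, z.1), z.2) ∉ S} = 0 := by
    filter_upwards [ae_ne_zero] with z hz
    obtain ⟨v, q⟩ := z
    simp only at hz ⊢
    set r2 : ℝ := v 0 ^ 2 + v 1 ^ 2 + v 2 ^ 2 with hr2
    have hr2pos : 0 < r2 := by
      rcases lt_or_eq_of_le (show 0 ≤ r2 by positivity) with h | h
      · exact h
      · exfalso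
        apply hz
        have h0 : v 0 = 0 := by nlinarith [sq_nonneg (v 0), sq_nonneg (v 1), sq_nonneg (v 2)]
        have h1 : v 1 = 0 := by nlinarith [sq_nonneg (v 0), sq_nonneg (v 1), sq_nonneg (v 2)]
        have h2 : v 2 = 0 := by nlinarith [sq_nonneg (v 0), sq_nonneg (v 1), sq_nonneg (v 2)]
        funext i
        fin_cases i
        · exact h0
        · exact h1
        · exact h2
    have hm : MeasurableSet {x : ℝ | ((x, v), q) ∈ S} :=
      hS.preimage ((measurable_id.prodMk measurable_const).prodMk measurable_const)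
    have := hcirc (Real.sqrt r2) {x : ℝ | ((x, v), q) ∈ S} (Real.sqrt_pos.2 hr2pos) hm ?_
    · exact this
    · intro x hx hxE
      rw [Real.sq_sqrt hr2pos.le] at hxE
      have hn : nsq ((x, v) : X) ≠ 0 := by
        have : 0 < x ^ 2 := by positivity
        have : nsq ((x, v) : X) = x ^ 2 + r2 := by simp [nsq, hr2]; ring
        rw [this]; positivity
      have e1 : qmul ((x, v) : X) (x, v) = (2 * x) • (((x ^ 2 - r2) / (2 * x), v) : X) := by
        refine Prod.ext ?_ ?_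
        · simp only [qmul, Prod.smul_fst, smul_eq_mul]
          rw [hr2]
          field_simp
        · funext i
          fin_cases i <;> simp [qmul] <;> ring_nf
      have e2 : R (((x ^ 2 - r2) / (2 * x), v) : X) = R ((x, v) : X) * R ((x, v) : X) := by
        rw [← hrot.mul _ _ hn hn, e1, hrot.smul _ _ (by simpa using hx)]
      have h' : (R (((x ^ 2 - r2) / (2 * x), v) : X), R q) ∈ O := hxE
      rw [e2] at h'
      show (R ((x, v) : X), R q) ∈ O
      exact hBI _ _ _ _ (mul_mem (mem_cl_left _ _) (mem_cl_left _ _)) (mem_cl_right _ _) h'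
  obtain ⟨D, hD, hSD⟩ := hcore1 S hS hsw hsec
  rcases hcore2 S D hS hD hSD hsw hmul hsc with h | h
  · left; exact hhaar μ O hO h
  · right; exact hhaar μ Oᶜ hO.compl h

end Pool.Agent.K1H92.ZO
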